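import Pool.Agent.H56.JW.Targets
import Pool.Agent.H44.HC.HAX

/-!
# Quadratic connectivity for Hamiltonicity of star-free graphs (MP_959f6e_co): row HXB

A good set of full rank gives a selection.
-/

set_option autoImplicit false

open Finset Submodule

namespace Pool.Agent.H74.JWQ

open Pool.Agent.H56.JW Pool.Agent.H44.HC Pool.Agent.H44.HC.Hax

/-! ### linear algebra -/

section rank
variable {Ω M : Type} [AddCommGroup M] [Module ℚ M]

theorem finrank_ind (φ : Ω → M) (T : Finset Ω) (h : LinearIndepOn ℚ φ (T : Set Ω)) :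
    Module.finrank ℚ (span ℚ (φ '' (T : Set Ω))) = T.card := by
  have h1 := finrank_span_eq_card (R := ℚ) (b := fun t : (T : Set Ω) => φ t) h
  rw [Set.image_eq_range, h1]
  simp

theorem span_eq_of_card [FiniteDimensional ℚ M] (φ : Ω → M) (T : Finset Ω)
    (h : LinearIndepOn ℚ φ (T : Set Ω)) (S : Finset M) (hS : S.card ≤ T.card)
    (hle : ∀ t ∈ T, φ t ∈ span ℚ (S : Set M)) :
    span ℚ (φ '' (T : Set Ω)) = span ℚ (S : Set M) := by
  apply Submodule.eq_of_le_of_finrank_le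
  · rw [span_le]
    rintro _ ⟨t, ht, rfl⟩
    exact hle t ht
  · rw [finrank_ind φ T h]
    exact (finrank_span_finset_le_card S).trans hS

end rank

variable {V : Type} [Fintype V] [DecidableEq V]

open Classical in
/-- the connectors of the copy `i` -/
noncomputable def TT (T : Finset (Elt V)) (i : Bool) : Finset (Cn V) :=
  T.biUnion fun z => match z with
    | .inl (κ, _, i') => if i' = i then {κ} else ∅
    | .inr _ => ∅

omit [Fintype V] [DecidableEq V] in
theorem mem_TT {T : Finset (Elt V)} {i : Bool} {κ : Cn V} :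
    κ ∈ TT T i ↔ ∃ τ, (Sum.inl (κ, τ, i) : Elt V) ∈ T := by
  classical
  unfold TT
  rw [Finset.mem_biUnion]
  constructor
  · rintro ⟨z, hz, hκ⟩
    rcases z with ⟨κ', τ, i'⟩ | z
    · by_cases hi : i' = i
      · simp only [hi, if_true, Finset.mem_singleton] at hκ
        subst hi
        subst hκ
        exact ⟨τ, hz⟩
      · simp only [hi, if_false] at hκ
        exact absurd hκ (Finset.notMem_empty _)
    · exact absurd hκ (Finset.notMem_empty _)
  · rintro ⟨τ, h⟩
    exact ⟨_, h, by simp⟩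

omit [DecidableEq V] in
theorem mem_lab [DecidableEq V] {X : Finset V} {lab : V → V} {u : V} (hu : u ∉ X) :
    lab u ∈ (univ \ X).image lab :=
  Finset.mem_image_of_mem lab (Finset.mem_sdiff.2 ⟨Finset.mem_univ u, hu⟩)

/-- the functionals which vanish on the vectors of a good set of full rank -/
theorem rank (G L : SimpleGraph V) (X : Finset V) (lab : V → V) (q : ℕ) (T : Finset (Elt V))
    (hv : ∀ t ∈ T, valE G L X lab q t) (hli : LinearIndepOn ℚ (phiE lab) (T : Set (Elt V)))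
    (hrk : rk L X lab ≤ T.card) (x0 : V)
    (f : ((Bool → V → ℚ) × (V × Fin 2 → ℚ)) →ₗ[ℚ] ℚ) (hf : ∀ t ∈ T, f (phiE lab t) = 0) :
    (∀ (i : Bool) (u v : V), u ∉ X → v ∉ X →
      f (Pi.single i (Pi.single (lab u) 1 - Pi.single (lab v) 1), 0) = 0) ∧
    ∀ (e : V) (j : Fin 2), Opn L X e j → f (0, Pi.single (e, j) 1) = 0 := by
  classical
  set Λ := (univ \ X).image lab with hΛ
  set O := univ.filter fun e : V × Fin 2 => Opn L X e.1 e.2 with hO
  obtain ⟨u0, hu0⟩ : ∃ u0 : V, (Λ.erase u0).card ≤ Λ.card - 1 ∧ (Λ.Nonempty → u0 ∈ Λ) := by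
    by_cases hne : Λ.Nonempty
    · obtain ⟨u0, hu0⟩ := hne
      exact ⟨u0, by rw [Finset.card_erase_of_mem hu0], fun _ => hu0⟩
    · refine ⟨x0, ?_, fun h => absurd h hne⟩
      rw [Finset.not_nonempty_iff_eq_empty] at hne
      rw [hne]
      simp
  set S : Finset ((Bool → V → ℚ) × (V × Fin 2 → ℚ)) :=
    ((univ : Finset Bool) ×ˢ (Λ.erase u0)).image
      (fun p => (Pi.single p.1 (Pi.single p.2 1 - Pi.single u0 1), 0)) ∪
    O.image (fun e => (0, Pi.single e 1)) with hS
  have hScard : S.card ≤ T.card := by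
    refine (Finset.card_union_le _ _).trans (le_trans ?_ hrk)
    unfold rk
    refine Nat.add_le_add (Finset.card_image_le.trans ?_) Finset.card_image_le
    rw [Finset.card_product]
    have : (univ : Finset Bool).card = 2 := rfl
    rw [this]
    exact Nat.mul_le_mul_left 2 hu0.1
  have hbase : ∀ (i : Bool) (c : V), c ∈ Λ →
      ((Pi.single i (Pi.single c 1 - Pi.single u0 1), 0) :
        (Bool → V → ℚ) × (V × Fin 2 → ℚ)) ∈ span ℚ (S : Set _) := by
    intro i c hc
    by_cases hcu : c = u0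
    · rw [hcu, sub_self, Pi.single_zero]
      exact zero_mem _
    · apply subset_span
      rw [Finset.mem_coe, hS, Finset.mem_union]
      exact Or.inl (Finset.mem_image.2 ⟨(i, c), Finset.mem_product.2 ⟨Finset.mem_univ _,
        Finset.mem_erase.2 ⟨hcu, hc⟩⟩, rfl⟩)
  have hall : ∀ (i : Bool) (c c' : V), c ∈ Λ → c' ∈ Λ →
      ((Pi.single i (Pi.single c 1 - Pi.single c' 1), 0) :
        (Bool → V → ℚ) × (V × Fin 2 → ℚ)) ∈ span ℚ (S : Set _) := by
    intro i c c' hc hc'
    have h1 : ((Pi.single i (Pi.single c 1 - Pi.single c' 1), 0) :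
        (Bool → V → ℚ) × (V × Fin 2 → ℚ)) =
        (Pi.single i (Pi.single c 1 - Pi.single u0 1), 0) -
        (Pi.single i (Pi.single c' 1 - Pi.single u0 1), 0) := by
      rw [Prod.mk_sub_mk, sub_self, ← Pi.single_sub]
      congr 2
      abel
    rw [h1]
    exact sub_mem (hbase i c hc) (hbase i c' hc')
  have hslot : ∀ e ∈ O, ((0, Pi.single e 1) :
      (Bool → V → ℚ) × (V × Fin 2 → ℚ)) ∈ span ℚ (S : Set _) := by
    intro e he
    apply subset_span
    rw [Finset.mem_coe, hS, Finset.mem_union]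
    exact Or.inr (Finset.mem_image.2 ⟨e, he, rfl⟩)
  have hmem : ∀ t ∈ T, phiE lab t ∈ span ℚ (S : Set ((Bool → V → ℚ) × (V × Fin 2 → ℚ))) := by
    intro t ht
    have h1 := hv t ht
    rcases t with ⟨κ, τ, i⟩ | ⟨e, j, b, s⟩
    · obtain ⟨h2, -, -⟩ := h1
      exact hall i _ _ (mem_lab (h2.PX _ h2.aP)) (mem_lab (h2.PX _ h2.bP))
    · obtain ⟨h2, -, -, -⟩ := h1
      exact hslot (e, j) (Finset.mem_filter.2 ⟨Finset.mem_univ _, h2⟩)
  have hspan := span_eq_of_card (phiE lab) T hli S hScard hmem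
  have hker : span ℚ (S : Set ((Bool → V → ℚ) × (V × Fin 2 → ℚ))) ≤ LinearMap.ker f := by
    rw [← hspan, span_le]
    rintro _ ⟨t, ht, rfl⟩
    exact LinearMap.mem_ker.2 (hf t ht)
  refine ⟨fun i u v hu hv => ?_, fun e j he => ?_⟩
  · exact LinearMap.mem_ker.1 (hker (hall i _ _ (mem_lab hu) (mem_lab hv)))
  · exact LinearMap.mem_ker.1 (hker (hslot (e, j) (Finset.mem_filter.2 ⟨Finset.mem_univ _, he⟩)))

/-- linking in the copy `i` -/
theorem link (G L : SimpleGraph V) (X : Finset V) (lab : V → V) (q : ℕ) (T : Finset (Elt V))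
    (hv : ∀ t ∈ T, valE G L X lab q t) (hli : LinearIndepOn ℚ (phiE lab) (T : Set (Elt V)))
    (hrk : rk L X lab ≤ T.card) (i : Bool) (u v : V) (hu : u ∉ X) (hv' : v ∉ X) :
    Link (fun κ : Cn V => lab κ.a) (fun κ => lab κ.b) (TT T i) (lab u) (lab v) := by
  classical
  by_contra hcon
  set C : Finset V := univ.filter fun w =>
    Link (fun κ : Cn V => lab κ.a) (fun κ => lab κ.b) (TT T i) (lab u) w with hC
  have hmem : ∀ w, w ∈ C ↔
      Link (fun κ : Cn V => lab κ.a) (fun κ => lab κ.b) (TT T i) (lab u) w := by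
    intro w
    rw [hC, Finset.mem_filter]
    exact ⟨fun h => h.2, fun h => ⟨Finset.mem_univ _, h⟩⟩
  have h0 := (rank G L X lab q T hv hli hrk u
    ((fnl i C).comp (LinearMap.fst ℚ (Bool → V → ℚ) (V × Fin 2 → ℚ))) (by
      intro t ht
      rcases t with ⟨κ, τ, i'⟩ | ⟨e, j, b, s⟩
      · show fnl i C (Pi.single i' (Pi.single (lab κ.a) 1 - Pi.single (lab κ.b) 1)) = 0
        rw [fnl_single]
        by_cases hi : i' = i
        · subst hi
          rw [if_pos rfl]
          have hl : Link (fun κ : Cn V => lab κ.a) (fun κ => lab κ.b) (TT T i') (lab κ.a)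
              (lab κ.b) := Relation.EqvGen.rel _ _ ⟨κ, mem_TT.2 ⟨τ, ht⟩, rfl, rfl⟩
          by_cases h1 : lab κ.a ∈ C
          · have h2 : lab κ.b ∈ C := (hmem _).2 (Relation.EqvGen.trans _ _ _ ((hmem _).1 h1) hl)
            rw [if_pos h1, if_pos h2, sub_self]
          · have h2 : lab κ.b ∉ C := fun h => h1 ((hmem _).2
              (Relation.EqvGen.trans _ _ _ ((hmem _).1 h) (Relation.EqvGen.symm _ _ hl)))
            rw [if_neg h1, if_neg h2, sub_self]
        · rw [if_neg hi]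
      · show fnl i C 0 = 0
        exact map_zero _)).1 i u v hu hv'
  have h1 : fnl i C (Pi.single i (Pi.single (lab u) 1 - Pi.single (lab v) 1)) = 0 := h0
  rw [fnl_single, if_pos rfl, if_pos ((hmem _).2 (Relation.EqvGen.refl _)),
    if_neg (fun h => hcon ((hmem _).1 h))] at h1
  norm_num at h1

/-- every open slot has an attachment -/
theorem attach (G L : SimpleGraph V) (X : Finset V) (lab : V → V) (q : ℕ) (T : Finset (Elt V))
    (hv : ∀ t ∈ T, valE G L X lab q t) (hli : LinearIndepOn ℚ (phiE lab) (T : Set (Elt V)))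
    (hrk : rk L X lab ≤ T.card) (e : V) (j : Fin 2) (he : Opn L X e j) :
    ∃ (b : V) (s : ℕ), (Sum.inr (e, j, b, s) : Elt V) ∈ T := by
  classical
  by_contra hcon
  push Not at hcon
  have h0 := (rank G L X lab q T hv hli hrk e
    ((LinearMap.proj (e, j)).comp (LinearMap.snd ℚ (Bool → V → ℚ) (V × Fin 2 → ℚ))) (by
      intro t ht
      rcases t with ⟨κ, τ, i'⟩ | ⟨e', j', b, s⟩
      · rfl
      · show (Pi.single (e', j') 1 : V × Fin 2 → ℚ) (e, j) = 0
        rw [Pi.single_eq_of_ne]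
        intro h
        rw [Prod.mk.injEq] at h
        obtain ⟨rfl, rfl⟩ := h
        exact hcon b s ht)).2 e j he
  have h1 : (Pi.single (e, j) 1 : V × Fin 2 → ℚ) (e, j) = 0 := h0
  rw [Pi.single_eq_same] at h1
  exact one_ne_zero h1

/-- the slot of a vertex in an element -/
def IsSl (v : V) (s : ℕ) : Elt V → Prop
  | .inl (κ, τ, _) => v ∈ κ.P ∧ s = τ v
  | .inr (_, _, b, s') => v = b ∧ s = s'

theorem sl_mem (L : SimpleGraph V) (lab : V → V) (v : V) (s : ℕ) (z : Elt V) (h : IsSl v s z) :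
    Sum.inr (lab v, s) ∈ spE L lab z := by
  classical
  rcases z with ⟨κ, τ, i⟩ | ⟨e, j, b, s'⟩
  · obtain ⟨h1, h2⟩ := h
    unfold spE
    rw [Finset.mem_union]
    refine Or.inr (Finset.mem_image.2 ⟨v, h1, ?_⟩)
    rw [h2]
  · obtain ⟨h1, h2⟩ := h
    unfold spE
    rw [h1, h2]
    simp

theorem sl_inj (G L : SimpleGraph V) (X : Finset V) (lab : V → V) (q : ℕ) (v v' : V) (s : ℕ)
    (z : Elt V) (hz : valE G L X lab q z) (h : IsSl v s z) (h' : IsSl v' s z)
    (hl : lab v = lab v') : v = v' ∧ s < q := by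
  rcases z with ⟨κ, τ, i⟩ | ⟨e, j, b, s'⟩
  · obtain ⟨h1, h2⟩ := h
    obtain ⟨h3, h4⟩ := h'
    obtain ⟨-, h5, h6⟩ := hz
    exact ⟨h6 v h1 v' h3 hl (h2.symm.trans h4), h2 ▸ h5 v h1⟩
  · obtain ⟨h1, h2⟩ := h
    obtain ⟨h3, -⟩ := h'
    obtain ⟨-, -, -, h5⟩ := hz
    exact ⟨h1.trans h3.symm, h2 ▸ h5⟩

theorem sup_mem (L : SimpleGraph V) (lab : V → V) (κ : Cn V) (τ : V → ℕ) (i : Bool) (v : V)
    (hv : v ∈ κ.sup L) : Sum.inl v ∈ spE L lab (.inl (κ, τ, i)) := by
  unfold spE
  exact Finset.mem_union_left _ (Finset.mem_image_of_mem _ hv)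

theorem P_sub (L : SimpleGraph V) (κ : Cn V) (v : V) (hv : v ∈ κ.P) : v ∈ κ.sup L := by
  unfold Cn.sup
  exact Finset.mem_union_right _ hv

theorem pf_HXB : T_HXB := by
  classical
  intro V _ _ G L X lab q T hT hrk
  have hv := hT.v
  have hd := hT.d
  have hli := hT.li
  have hmeet : ∀ z ∈ T, ∀ z' ∈ T, ∀ w, w ∈ spE L lab z → w ∈ spE L lab z' → z = z' := by
    intro z hz z' hz' w h1 h2
    by_contra hne
    exact Finset.disjoint_left.1 (hd z hz z' hz' hne) h1 h2
  choose at0 sl0 hat0 using attach G L X lab q T hv hli hrk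
  have hlift : ∀ κ ∈ TT T false ∪ TT T true, ∃ (τ : V → ℕ) (i : Bool),
      (Sum.inl (κ, τ, i) : Elt V) ∈ T := by
    intro κ hκ
    rcases Finset.mem_union.1 hκ with h | h
    · obtain ⟨τ, h⟩ := mem_TT.1 h
      exact ⟨τ, _, h⟩
    · obtain ⟨τ, h⟩ := mem_TT.1 h
      exact ⟨τ, _, h⟩
  set at' : V → Fin 2 → V := fun e j => if h : Opn L X e j then at0 e j h else e with hat'
  have hat : ∀ e j, Opn L X e j → ∃ s, (Sum.inr (e, j, at' e j, s) : Elt V) ∈ T := by
    intro e j h
    have h1 : at' e j = at0 e j h := by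
      rw [hat']
      exact dif_pos h
    rw [h1]
    exact ⟨_, hat0 e j h⟩
  have hbsp : ∀ (e : V) (j : Fin 2) (b : V) (s : ℕ),
      Sum.inl b ∈ spE L lab (.inr (e, j, b, s)) := by
    intro e j b s
    unfold spE
    simp
  refine ⟨TT T false, TT T true, at', ?_, ?_, ?_, ?_, ?_, ?_, ?_, ?_, ?_⟩
  · intro κ hκ
    obtain ⟨τ, i, h⟩ := hlift κ hκ
    exact (hv _ h).1
  · rw [Finset.disjoint_left]
    intro κ h1 h2
    obtain ⟨τ, h1⟩ := mem_TT.1 h1
    obtain ⟨τ', h2⟩ := mem_TT.1 h2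
    have ha := P_sub L κ κ.a (hv _ h1).1.aP
    have h3 := hmeet _ h1 _ h2 (Sum.inl κ.a) (sup_mem L lab κ τ false _ ha)
      (sup_mem L lab κ τ' true _ ha)
    simp at h3
  · intro κ hκ κ' hκ' hne
    obtain ⟨τ, i, h⟩ := hlift κ hκ
    obtain ⟨τ', i', h'⟩ := hlift κ' hκ'
    rw [Finset.disjoint_left]
    intro v h1 h2
    have h3 := hmeet _ h _ h' (Sum.inl v) (sup_mem L lab κ τ i v h1)
      (sup_mem L lab κ' τ' i' v h2)
    apply hne
    simp only [Sum.inl.injEq, Prod.mk.injEq] at h3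
    exact h3.1
  · intro e j he
    obtain ⟨s, h⟩ := hat e j he
    obtain ⟨-, h1, h2, -⟩ := hv _ h
    exact ⟨h1, h2⟩
  · intro e j e' j' he he' hee
    obtain ⟨s, h⟩ := hat e j he
    obtain ⟨s', h'⟩ := hat e' j' he'
    have h3 := hmeet _ h _ h' (Sum.inl (at' e j)) (hbsp _ _ _ _) (hee ▸ hbsp _ _ _ _)
    simp only [Sum.inr.injEq, Prod.mk.injEq] at h3
    exact ⟨h3.1, h3.2.1⟩
  · intro e j he κ hκ hP
    obtain ⟨s, h⟩ := hat e j he
    obtain ⟨τ, i, h'⟩ := hlift κ hκ
    have h3 := hmeet _ h _ h' (Sum.inl (at' e j)) (hbsp _ _ _ _)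
      (sup_mem L lab κ τ i _ (P_sub L κ _ hP))
    simp at h3
  · intro c
    have hex : ∀ v ∈ (used L X (TT T false ∪ TT T true) at').filter (fun v => lab v = c),
        ∃ s : ℕ, ∃ z ∈ T, IsSl v s z := by
      intro v hv'
      have h1 := (Finset.mem_filter.1 hv').1
      unfold used at h1
      rcases Finset.mem_union.1 h1 with h | h
      · obtain ⟨κ, hκ, hP⟩ := Finset.mem_biUnion.1 h
        obtain ⟨τ, i, h⟩ := hlift κ hκ
        exact ⟨τ v, _, h, hP, rfl⟩
      · obtain ⟨e, he, rfl⟩ := Finset.mem_image.1 h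
        obtain ⟨s, h⟩ := hat e.1 e.2 (Finset.mem_filter.1 he).2
        exact ⟨s, _, h, rfl, rfl⟩
    choose! s hs using hex
    have hcard : (range q).card = q := Finset.card_range q
    rw [← hcard]
    refine Finset.card_le_card_of_injOn s ?_ ?_
    · intro v hv'
      obtain ⟨z, hz, hsl⟩ := hs v (Finset.mem_coe.1 hv')
      exact Finset.mem_coe.2 (Finset.mem_range.2
        (sl_inj G L X lab q v v (s v) z (hv z hz) hsl hsl rfl).2)
    · intro v hv' v' hv'' hss
      obtain ⟨z, hz, hsl⟩ := hs v (Finset.mem_coe.1 hv')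
      obtain ⟨z', hz', hsl'⟩ := hs v' (Finset.mem_coe.1 hv'')
      have hc : lab v = lab v' := ((Finset.mem_filter.1 (Finset.mem_coe.1 hv')).2).trans
        ((Finset.mem_filter.1 (Finset.mem_coe.1 hv'')).2).symm
      have h1 := sl_mem L lab v (s v) z hsl
      have h2 := sl_mem L lab v' (s v') z' hsl'
      rw [← hc, ← hss] at h2
      have h3 := hmeet z hz z' hz' _ h1 h2
      subst h3
      rw [← hss] at hsl'
      exact (sl_inj G L X lab q v v' (s v) z (hv z hz) hsl hsl' hc).1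
  · intro u hu v hv'
    exact link G L X lab q T hv hli hrk false u v hu hv'
  · intro u hu v hv'
    exact link G L X lab q T hv hli hrk true u v hu hv'

end Pool.Agent.H74.JWQ
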